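import Mathlib
import Pool.Agent.Lib_helper38.XA.Defs
import Pool.Agent.Lib_helper94.XO.Pr
import Pool.Agent.Lib_helper94.XO.Sel.Act
set_option autoImplicit false

/-! XA, PART II, block A11: from the selection to the CACT system. -/

namespace Pool.Agent.XA

open Finset Filter Pool.Agent.XO

/-- products of elements of one arc are not far (own copy) -/
theorem a11_not_far {k : ℕ} {arc : ℂ → Fin k}
    (harc : ∀ z w : ℂ, ‖z‖ = 1 → ‖w‖ = 1 → arc z = arc w → ‖z - w‖ ≤ 1 / 10)
    {z1 z2 w1 w2 : ℂ} (h1 : ‖z1‖ = 1) (h2 : ‖z2‖ = 1) (h3 : ‖w1‖ = 1) (h4 : ‖w2‖ = 1)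
    (e1 : arc z1 = arc w1) (e2 : arc z2 = arc w2) : ¬ Far (z1 * z2) (w1 * w2) := by
  intro hF
  unfold Far at hF
  have d1 := harc z1 w1 h1 h3 e1
  have d2 := harc z2 w2 h2 h4 e2
  have d : ‖z1 * z2 - w1 * w2‖ ≤ 1 / 5 := by
    have : z1 * z2 - w1 * w2 = (z1 - w1) * z2 + w1 * (z2 - w2) := by ring
    rw [this]
    refine (norm_add_le _ _).trans ?_
    rw [norm_mul, norm_mul, h2, h3]
    linarith
  have hw : ‖w1 * w2‖ = 1 := by rw [norm_mul, h3, h4, one_mul]
  have hww : (w1 * w2) * (starRingEnd ℂ) (w1 * w2) = 1 := by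
    rw [Complex.mul_conj, Complex.normSq_eq_norm_sq, hw]
    norm_num
  have h5 : (z1 * z2) * (starRingEnd ℂ) (w1 * w2) =
      1 + (z1 * z2 - w1 * w2) * (starRingEnd ℂ) (w1 * w2) := by
    rw [sub_mul, hww]; ring
  have h6 : |((z1 * z2 - w1 * w2) * (starRingEnd ℂ) (w1 * w2)).re| ≤ 1 / 5 := by
    refine (Complex.abs_re_le_norm _).trans ?_
    rw [norm_mul, Complex.norm_conj, hw, mul_one]
    exact d
  rw [h5, Complex.add_re, Complex.one_re] at hF
  have := (abs_le.1 h6).1
  linarith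

variable {V : Type} [AddCommGroup V] [Fintype V] [DecidableEq V]

/-- the deterministic half of PART II -/
theorem asel_act {p : V → ℝ} {e : V → ℂ} (he : ∀ c, ‖e c‖ = 1) {k : ℕ} {arc : ℂ → Fin k}
    (harc : ∀ z w : ℂ, ‖z‖ = 1 → ‖w‖ = 1 → arc z = arc w → ‖z - w‖ ≤ 1 / 10)
    {σ : V → V → V × V}
    (hσ : AGate p e σ) {n M Λ M₀ G : ℕ} {v : ℝ} {K : V → Finset (Fin n)} {Hb : Finset (Fin n)}
    {y : Fin M → V} (h : ASel p σ Λ M₀ G v K Hb y) :
    ∃ (K' : V → Finset ℕ) (y' : Fin M₀ → V), CACT Λ G (fun c => arc (e c)) σ K' y' := by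
  have h1 := h.ok
  have h2 := h.reach
  have h3 := h.cons
  have h4 := h.disj
  have h5 := h.uniq
  obtain ⟨s, hs, hsc⟩ := Finset.exists_subset_card_eq h1
  let ι : Fin M₀ → Fin M := fun a => (s.equivFinOfCardEq hsc).symm a
  have hι : Function.Injective ι := by
    intro a b hab
    exact (s.equivFinOfCardEq hsc).symm.injective (Subtype.ext hab)
  have hιs : ∀ a, (K (y (ι a))).card ≤ Λ := by
    intro a
    have := hs ((s.equivFinOfCardEq hsc).symm a).2
    exact (Finset.mem_filter.1 this).2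
  have hL : ∀ g ≤ G, ∀ c, Reach σ (fun a => y (ι a)) g c →
      Eff p v (∑ i, y i) (act_lift ι y c) ∧
        ∀ a b, a ≠ b → act_lift ι y c a + act_lift ι y c b ≠ 0 :=
    fun g hg c hc => h2 g hg _ (act_reach hι σ y hc)
  refine ⟨fun c => (K c \ Hb).map Fin.valEmbedding, fun a => y (ι a), ?_⟩
  refine ⟨?_, ?_, ?_, ?_, ?_⟩
  · intro g hg c hc a b hab
    rw [Finset.disjoint_map]
    have := h4 _ (hL g hg c hc).1 (ι a) (ι b) (fun h => hab (hι h))
    rwa [act_lift_apply hι, act_lift_apply hι] at this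
  · intro g hg c hc
    have hEc := (hL g hg c hc).1
    have hEy : Eff p v (∑ i, y i) y := (h2 0 (Nat.zero_le _) y Reach.zero).1
    -- an element of the support at a position of `ι`
    have key : ∀ (c c' : Fin M₀ → V), Eff p v (∑ i, y i) (act_lift ι y c) →
        Eff p v (∑ i, y i) (act_lift ι y c') → ∀ a, ∀ j ∈ K (c a) \ Hb,
        ∃ b, j ∈ K (c' b) \ Hb := by
      intro c c' hE hE' a j hj
      have hj1 := Finset.mem_sdiff.1 hj
      have h6 : j ∈ univ.biUnion fun i => K (act_lift ι y c i) := by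
        rw [Finset.mem_biUnion]
        exact ⟨ι a, Finset.mem_univ _, by rw [act_lift_apply hι]; exact hj1.1⟩
      rw [h3 _ _ hE hE', Finset.mem_biUnion] at h6
      obtain ⟨i, -, hi⟩ := h6
      by_cases hia : ∃ b, ι b = i
      · obtain ⟨b, rfl⟩ := hia
        rw [act_lift_apply hι] at hi
        exact ⟨b, Finset.mem_sdiff.2 ⟨hi, hj1.2⟩⟩
      · exfalso
        have hi' : ∀ b, ι b ≠ i := fun b hb => hia ⟨b, hb⟩
        rw [act_lift_off y _ i hi'] at hi
        have h7 := h4 _ hE (ι a) i (hi' a)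
        rw [act_lift_apply hι, act_lift_off y _ i hi', Finset.disjoint_left] at h7
        exact h7 hj (Finset.mem_sdiff.2 ⟨hi, hj1.2⟩)
    have hEy' : Eff p v (∑ i, y i) (act_lift ι y (fun a => y (ι a))) := by
      rw [act_lift_self hι]; exact hEy
    ext j
    simp only [Finset.mem_biUnion, Finset.mem_univ, true_and, Finset.mem_map]
    constructor
    · rintro ⟨a, i, hi, rfl⟩
      obtain ⟨b, hb⟩ := key c _ hEc hEy' a i hi
      exact ⟨b, i, hb, rfl⟩
    · rintro ⟨a, i, hi, rfl⟩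
      obtain ⟨b, hb⟩ := key _ c hEy' hEc a i hi
      exact ⟨b, i, hb, rfl⟩
  · rintro g hg c hc a b hab ⟨f1, f2, f3⟩
    obtain ⟨hE, hinj⟩ := hL g hg c hc
    have ha := act_pw_ne hE.2.2 (ι a)
    have hb := act_pw_ne hE.2.2 (ι b)
    rw [act_lift_apply hι] at ha hb
    have hne : c a + c b ≠ 0 := by
      have := hinj (ι a) (ι b) (fun h => hab (hι h))
      rwa [act_lift_apply hι, act_lift_apply hι] at this
    have hfar := (hσ (c a) (c b) ha hb hne).2.2.1
    exact a11_not_far harc (he _) (he _) (he _) (he _) f2 (f3.trans f1.symm) hfar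
  · intro g hg g' hg' c c' hc hc' a a' hK
    have hK' := Finset.map_injective _ hK
    have h6 := h5 _ _ (hL g hg c hc).1 (hL g' hg' c' hc').1 (ι a) (ι a')
    rw [act_lift_apply hι, act_lift_apply hι] at h6
    exact congrArg (fun z => arc (e z)) (h6 hK')
  · intro a
    rw [Finset.card_map]
    exact (Finset.card_le_card Finset.sdiff_subset).trans (hιs a)

end Pool.Agent.XA
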